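import Pool.Agent.H91.Tur2

set_option autoImplicit false

open Set Pool.Agent.H91.Tur in
theorem Pool.Agent.Results.MP_f30c32_an.Minima.result :
    ∀ ν : ℝ, 0 < ν →
    (∃ j : ℕ → ℝ, StrictMono j ∧ range j = {x | 0 < x ∧ J ν x = 0}) ∧
    ∀ j : ℕ → ℝ, StrictMono j → range j = {x | 0 < x ∧ J ν x = 0} →
      (∀ n, ∃! a, a ∈ Ioo (j n) (j (n + 1)) ∧ deriv (Phi ν) a = 0) ∧
      ∀ α β : ℕ → ℝ, (∀ n, α n ∈ Ioo (j n) (j (n + 1)) ∧ deriv (Phi ν) (α n) = 0) →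
        β 0 = 1 / (ν + 1) → (∀ n, β (n + 1) = Phi ν (α n)) → StrictMono β :=
  main
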